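import Mathlib
import Pool.Agent.J4.H73.BE.Fin

/-!
# An unconditional basic sequence in `ℓ₁` which cannot be extended to a basis of `ℓ₁`

The answer to the question is negative, already in the space `ℓ₁` (real or complex), and even for
unconditional basic sequences.

Let `n = 2 ^ m`, let `H` be the Sylvester-Hadamard matrix of order `n`, and let `E_m` be the space
`L₁({±1}ⁿ × {±1}ⁿ)`, a copy of `ℓ₁` of finite dimension. By Khintchine's inequality the functions
`r_i ⊗ r_j` span in `E_m` a Euclidean subspace. Order them in such a way that those with `H i j = 1`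
come first. The resulting sequence in the `ℓ₁`-sum of the `E_m` is an unconditional basic sequence.
If it were a subsequence of a basis, the partial sum projections of the basis would give, for every
`m`, an operator `P` of `E_m` with a norm bounded independently of `m`, which maps `r_i ⊗ r_j` to
itself if `H i j = 1` and to `0` if `H i j = -1`. But trace duality with the kernel
`∑ H i j r_i(g) r_j(g) r_i(g') r_j(g')`, whose supremum norm is at most `n ^ (3/2)`, gives
`n ^ 2 / 2 ≤ n ^ (3/2) ‖P‖`.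
-/

set_option autoImplicit false

open Filter Topology

namespace Pool.Agent.Results.MP_72464c_an.NotExtendable

/-- The sequence `u` is a (Schauder) basis of `E`: every `x` in `E` has a unique expansion
`x = ∑ a k • u k`, the series converging in norm. -/
def IsBasis (𝕜 : Type) [RCLike 𝕜] {E : Type} [NormedAddCommGroup E] [NormedSpace 𝕜 E]
    (u : ℕ → E) : Prop :=
  ∀ x : E, ∃! a : ℕ → 𝕜, Tendsto (fun n => ∑ k ∈ Finset.range n, a k • u k) atTop (𝓝 x)

/-- The closed linear span of the sequence `y`. -/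
abbrev ClosedSpan (𝕜 : Type) [RCLike 𝕜] {E : Type} [NormedAddCommGroup E] [NormedSpace 𝕜 E]
    (y : ℕ → E) : Submodule 𝕜 E :=
  (Submodule.span 𝕜 (Set.range y)).topologicalClosure

/-- The sequence `y`, considered as a sequence in its closed linear span. -/
def inSpan (𝕜 : Type) [RCLike 𝕜] {E : Type} [NormedAddCommGroup E] [NormedSpace 𝕜 E]
    (y : ℕ → E) (n : ℕ) : ClosedSpan 𝕜 y :=
  ⟨y n, subset_closure (Submodule.subset_span ⟨n, rfl⟩)⟩

/-- The sequence `y` is a basic sequence: it is a basis of its closed linear span. -/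
def IsBasicSequence (𝕜 : Type) [RCLike 𝕜] {E : Type} [NormedAddCommGroup E] [NormedSpace 𝕜 E]
    (y : ℕ → E) : Prop :=
  IsBasis 𝕜 (inSpan 𝕜 y)

/-- The sequence `y` can be extended to a basis of `E`: it is a subsequence, in its given order, of
some basis of `E`. -/
def ExtendsToBasis (𝕜 : Type) [RCLike 𝕜] {E : Type} [NormedAddCommGroup E] [NormedSpace 𝕜 E]
    (y : ℕ → E) : Prop :=
  ∃ u : ℕ → E, IsBasis 𝕜 u ∧ ∃ p : ℕ → ℕ, StrictMono p ∧ ∀ n, u (p n) = y n

theorem isBasicSequence_of {𝕜 : Type} [RCLike 𝕜] {E : Type} [NormedAddCommGroup E]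
    [NormedSpace 𝕜 E] {y : ℕ → E} (h : Pool.Agent.J4.H73.BE.IsBasic 𝕜 y) :
    IsBasicSequence 𝕜 y := by
  rintro ⟨x, hx⟩
  have key : ∀ a : ℕ → 𝕜, Tendsto (fun n => ∑ k ∈ Finset.range n, a k • inSpan 𝕜 y k) atTop
      (𝓝 ⟨x, hx⟩) ↔ Tendsto (fun n => ∑ k ∈ Finset.range n, a k • y k) atTop (𝓝 x) := by
    intro a
    rw [tendsto_subtype_rng]
    refine iff_of_eq (congrArg (fun f => Tendsto f atTop (𝓝 x)) ?_)
    funext n
    simp [inSpan]
  simp_rw [key]
  exact h x hx

/-- **Theorem.** The Banach space `ℓ₁` over `𝕜` (`𝕜 = ℝ` or `ℂ`) has a basis, and there is a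
sequence `y` in `ℓ₁` which is a basic sequence in every order (that is, `y` is an unconditional
basic sequence) and which cannot be extended to a basis of `ℓ₁`. -/
theorem result (𝕜 : Type) [RCLike 𝕜] :
    (∃ u : ℕ → lp (fun _ : ℕ => 𝕜) 1, IsBasis 𝕜 u) ∧
    ∃ y : ℕ → lp (fun _ : ℕ => 𝕜) 1,
      (∀ π : Equiv.Perm ℕ, IsBasicSequence 𝕜 (fun n => y (π n))) ∧ ¬ ExtendsToBasis 𝕜 y := by
  refine ⟨⟨_, Pool.Agent.J4.H73.BE.unit_basis 𝕜⟩, Pool.Agent.J4.H73.BE.yseq 𝕜,
    fun π => isBasicSequence_of (Pool.Agent.J4.H73.BE.yseq_basic 𝕜 π), ?_⟩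
  rintro ⟨u, hu, p, hp, h⟩
  exact Pool.Agent.J4.H73.BE.yseq_not_ext 𝕜 hu hp h

end Pool.Agent.Results.MP_72464c_an.NotExtendable
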